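import Pool.Agent.MWGP.Stmts

/-!
# Block MWGP, row FCM: two letters with another common block commute
-/

set_option autoImplicit false

namespace Pool.Agent.MWGP.H37

open Pool.Agent.Helper14_MV Pool.Agent.Helper2_MV Pool.Agent.MVO Pool.Agent.MWL Pool.Agent.MWS
open Pool.Agent.MWH

theorem fcm (hGAP : GapStmt) : FcmStmt := by
  intro n β hL k C hC i hi j hj hji A D x y hCi hxy hxj hyj
  have hcnt : ∀ a ∈ C j, 2 ≤ (asm k C).count a := by
    intro a ha
    rw [count_asm (hC.ok j hj a ha)]
    exact hC.ml j hj a ha
  rw [asm_split hi C, hCi] at hcnt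
  rw [asm_update hi, asm_split hi C, hCi]
  rcases Nat.lt_or_gt_of_ne hji with hlt | hlt
  · have hx : x ∈ pre C i ++ A := List.mem_append_left _ (mem_pre.2 (Or.inr ⟨j, hlt, hxj⟩))
    have hy : y ∈ pre C i ++ A := List.mem_append_left _ (mem_pre.2 (Or.inr ⟨j, hlt, hyj⟩))
    have h := (hGAP n β hL.ga hL.rn (pre C i ++ A) (D ++ suf C i (k - i)) x y hx).2 hy
    simpa only [List.append_assoc, List.cons_append] using h
  · obtain ⟨R, R', hs⟩ := suf_split (B := C) hlt (by omega : j ≤ i + (k - i))
    rw [hs] at hcnt ⊢
    obtain ⟨P, Q0, hP⟩ := List.append_of_mem hxj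
    have hy : y ∈ P ∨ y ∈ Q0 := by
      rw [hP, List.mem_append, List.mem_cons] at hyj
      rcases hyj with h | h | h
      · exact Or.inl h
      · exact absurd h.symm hxy
      · exact Or.inr h
    rcases hy with hy | hy
    · obtain ⟨P1, c, hP1⟩ := List.append_of_mem hy
      have hc : ∀ a ∈ c, a ∈ C j := by
        intro a ha
        rw [hP, hP1]
        simp [ha]
      have h := hL.f (pre C i ++ A) (D ++ R ++ P1) c (Q0 ++ R') y x (by
        intro a ha
        have h1 := hcnt a (hc a ha)
        rw [hP, hP1] at h1
        simp only [List.append_assoc, List.cons_append, List.count_append, List.count_cons] at h1 ⊢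
        omega)
      rw [hP, hP1]
      have h2 := RR.symm h
      simpa only [List.append_assoc, List.cons_append] using h2
    · obtain ⟨c, Q, hQ⟩ := List.append_of_mem hy
      have hc : ∀ a ∈ c, a ∈ C j := by
        intro a ha
        rw [hP, hQ]
        simp [ha]
      have h := hL.f (pre C i ++ A) (D ++ R ++ P) c (Q ++ R') x y (by
        intro a ha
        have h1 := hcnt a (hc a ha)
        rw [hP, hQ] at h1
        simp only [List.append_assoc, List.cons_append, List.count_append, List.count_cons] at h1 ⊢
        omega)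
      rw [hP, hQ]
      simpa only [List.append_assoc, List.cons_append] using h

end Pool.Agent.MWGP.H37
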