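import Pool.Agent.MWGP.Stmts

/-!
# Block MWGP, row RS0: residues of the first letter can be changed
-/

set_option autoImplicit false

namespace Pool.Agent.MWGP.H37

open Pool.Agent.Helper14_MV Pool.Agent.Helper2_MV Pool.Agent.MVO Pool.Agent.MWL Pool.Agent.MWS
open Pool.Agent.MWA Pool.Agent.MWH

theorem flat_rep (m : ℕ) : (List.replicate m 0).flatMap (fun _ : ℕ => [0]) = List.replicate m 0 := by
  induction m with
  | zero => rfl
  | succ m ih => rw [List.replicate_succ, List.flatMap_cons, ih]; rfl

/-- insertion of a one letter identity for the letter `0` -/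
theorem ins0 (θ : FIC) (k : ℕ) (c c' : ℕ → ℕ) (P Q : ℕ → List ℕ) (h : L1 θ k c c') :
    RR θ (asm k (fun j => P j ++ List.replicate (c j) 0 ++ Q j))
      (asm k (fun j => P j ++ List.replicate (c' j) 0 ++ Q j)) := by
  have hb : ∀ c : ℕ → ℕ, BlkOk k (fun j => List.replicate (c j) 0) := by
    intro c j _ x hx
    rw [List.eq_of_mem_replicate hx]
    intro hh
    omega
  have h1 := rr_ins θ P Q (fun _ => [0]) (hb c) (hb c') h
  simpa only [flat_rep] using h1

theorem okb_of {k : ℕ} {X : ℕ → List ℕ} {A B : ℕ → ℕ} (hc : ∀ j, (X j).count 0 = A j ∧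
    (X j).count 1 = B j) (hl : ∀ j, ∀ c ∈ X j, c = 0 ∨ c = 1) (hA : 2 ≤ deg k A)
    (hB : 2 ≤ deg k B) : OkB k X := by
  refine ⟨fun j _ c h => ?_, fun j _ c h => ?_⟩
  · rcases hl j c h with rfl | rfl
    · intro hh
      omega
    · intro hh
      omega
  · rcases hl j c h with rfl | rfl
    · have e : (fun j => (X j).count 0) = A := funext (fun j => (hc j).1)
      rw [e]
      exact hA
    · have e : (fun j => (X j).count 1) = B := funext (fun j => (hc j).2)
      rw [e]
      exact hB

theorem deg_mono {k : ℕ} {A B : ℕ → ℕ} (h : ∀ j, A j ≤ B j) : deg k A ≤ deg k B :=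
  Finset.sum_le_sum (fun j _ => h j)

/-- the word `0 1^(b i) 0^(a i + n - 1)` in block `i` -/
def ovw (n : ℕ) (a b : ℕ → ℕ) (i : ℕ) : ℕ → List ℕ := fun j =>
  (if j = i then 0 :: List.replicate (b j) 1 else []) ++
    List.replicate (a j + (if j = i then n - 1 else 0)) 0 ++
    (if j = i then [] else List.replicate (b j) 1)

theorem ovw_eq (hNFE : MWHP.NfeStmt) (hOKW : MWH.OkwStmt) (n : ℕ) (β : FIC)
    (hβ : MWHP.BaseH n β) (k : ℕ) (a b : ℕ → ℕ) (i : ℕ) (hV : Vd k a b i) (ha : 2 ≤ a i) :
    RR β (asm k (W a b i Stt.ov)) (asm k (ovw n a b i)) := by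
  have hn := hβ.pos
  obtain ⟨o1, _, o3, o4, o5, o6⟩ := hOKW k a b i Stt.ov hV (fun _ => Or.inl ha)
  have c0 : ∀ j, (ovw n a b i j).count 0 = a j + (if j = i then n else 0) ∧
      (ovw n a b i j).count 1 = b j := by
    intro j
    unfold ovw
    by_cases hj : j = i
    · subst hj
      rw [if_pos rfl, if_pos rfl, if_pos rfl, if_pos rfl]
      simp only [List.count_append, List.count_replicate, List.count_cons, List.count_nil]
      constructor
      · simp
        omega
      · simp
    · rw [if_neg hj, if_neg hj, if_neg hj, if_neg hj]
      simp only [List.count_append, List.count_replicate, List.count_nil]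
      constructor
      · simp
      · simp
  have l0 : ∀ j, ∀ c ∈ ovw n a b i j, c = 0 ∨ c = 1 := by
    intro j c hc
    unfold ovw at hc
    rw [List.mem_append, List.mem_append] at hc
    rcases hc with (hc | hc) | hc
    · by_cases hj : j = i
      · rw [if_pos hj, List.mem_cons] at hc
        rcases hc with hc | hc
        · exact Or.inl hc
        · exact Or.inr (List.eq_of_mem_replicate hc)
      · rw [if_neg hj] at hc
        exact absurd hc List.not_mem_nil
    · exact Or.inl (List.eq_of_mem_replicate hc)
    · by_cases hj : j = i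
      · rw [if_pos hj] at hc
        exact absurd hc List.not_mem_nil
      · rw [if_neg hj] at hc
        exact Or.inr (List.eq_of_mem_replicate hc)
  have p1 : OkB k (ovw n a b i) := okb_of c0 l0
    (hV.da.trans (deg_mono (fun j => Nat.le_add_right _ _))) hV.db
  refine hNFE n β hβ k _ _ o1 p1 ?_ ?_
  · intro c _ j hj
    unfold ty
    by_cases h1 : c = 1
    · subst h1
      rw [(o3 j).2, (c0 j).2]
      exact Or.inl rfl
    · by_cases h0 : c = 0
      · subst h0
        rw [(o3 j).1, (c0 j).1]
        by_cases hji : j = i
        · subst hji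
          rw [if_pos rfl]
          refine Or.inr ⟨ha, by omega, ?_⟩
          unfold Nat.ModEq
          rw [Nat.add_mod_right]
        · rw [if_neg hji]
          exact Or.inl rfl
      · refine Or.inl ?_
        have e1 : (W a b i Stt.ov j).count c = 0 := List.count_eq_zero.2 (fun h => by
          rcases o4 j c h with h | h
          · exact h0 h
          · exact h1 h)
        have e2 : (ovw n a b i j).count c = 0 := List.count_eq_zero.2 (fun h => by
          rcases l0 j c h with h | h
          · exact h0 h
          · exact h1 h)
        rw [e1, e2]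
  · intro i' hi' x y hxy hx hy _
    have key : (x = 0 ∧ y = 1) ∨ (x = 1 ∧ y = 0) := by
      rcases o4 i' x hx with h1 | h1
      · rcases o4 i' y hy with h2 | h2
        · exact absurd (h1.trans h2.symm) hxy
        · exact Or.inl ⟨h1, h2⟩
      · rcases o4 i' y hy with h2 | h2
        · exact Or.inr ⟨h1, h2⟩
        · exact absurd (h1.trans h2.symm) hxy
    have h0 : 0 ∈ W a b i Stt.ov i' := by
      rcases key with ⟨rfl, _⟩ | ⟨_, rfl⟩
      · exact hx
      · exact hy
    have h1 : 1 ∈ W a b i Stt.ov i' := by
      rcases key with ⟨_, rfl⟩ | ⟨rfl, _⟩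
      · exact hy
      · exact hx
    have ha' : a i' ≠ 0 := by
      have := List.count_pos_iff.2 h0
      rw [(o3 i').1] at this
      omega
    have hb' : b i' ≠ 0 := by
      have := List.count_pos_iff.2 h1
      rw [(o3 i').2] at this
      omega
    have hi : i' = i := by
      by_contra hne
      rcases hV.un i' hi' hne with h | h
      · exact ha' h
      · exact hb' h
    subst hi
    have eX : ovw n a b i' i' = 0 :: List.replicate (b i') 1 ++
        List.replicate (a i' + (n - 1)) 0 := by
      unfold ovw
      rw [if_pos rfl, if_pos rfl, if_pos rfl, List.append_nil]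
    have eb : List.replicate (b i') 1 = 1 :: List.replicate (b i' - 1) 1 := by
      rw [← List.replicate_succ]
      congr 1
      omega
    rcases key with ⟨rfl, rfl⟩ | ⟨rfl, rfl⟩
    · rw [o5]
      refine ⟨fun h => absurd h (by decide), fun h => ?_⟩
      refine absurd ?_ (h [0] (List.replicate (b i' - 1) 1 ++ List.replicate (a i' + (n - 1)) 0)
        (by rw [eX, eb]; rfl))
      rw [List.mem_append, List.mem_replicate, List.mem_replicate]
      exact Or.inr ⟨by omega, rfl⟩
    · rw [o6]
      refine ⟨fun h => absurd h (by decide), fun h => ?_⟩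
      refine absurd ?_ (h [] (List.replicate (b i') 1 ++ List.replicate (a i' + (n - 1)) 0)
        (by rw [eX]; rfl))
      rw [List.mem_append, List.mem_replicate, List.mem_replicate]
      exact Or.inl ⟨hb', rfl⟩

theorem rs0 (hNFE : MWHP.NfeStmt) (hOKW : MWH.OkwStmt) : Rs0Stmt := by
  intro n β θ hβ hle k a a' b i hV hV' hS hL s hs
  cases s with
  | xy =>
    have h := ins0 θ k a a' (fun _ => []) (fun j => List.replicate (b j) 1) hL
    have e : ∀ c : ℕ → ℕ, (fun j => [] ++ List.replicate (c j) 0 ++ List.replicate (b j) 1) =
        W c b i Stt.xy := by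
      intro c
      funext j
      unfold MWH.W
      by_cases hj : j = i
      · subst hj
        rw [if_pos rfl, List.nil_append]
        rfl
      · rw [if_neg hj, List.nil_append]
    rwa [e, e] at h
  | yx =>
    have h := ins0 θ k a a' (fun j => if j = i then List.replicate (b j) 1 else [])
      (fun j => if j = i then [] else List.replicate (b j) 1) hL
    have e : ∀ c : ℕ → ℕ, (fun j => (if j = i then List.replicate (b j) 1 else []) ++
        List.replicate (c j) 0 ++ (if j = i then [] else List.replicate (b j) 1)) =
        W c b i Stt.yx := by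
      intro c
      funext j
      unfold MWH.W
      by_cases hj : j = i
      · subst hj
        rw [if_pos rfl, if_pos rfl, if_pos rfl, List.append_nil]
        rfl
      · rw [if_neg hj, if_neg hj, if_neg hj, List.nil_append]
    rwa [e, e] at h
  | ov =>
    by_cases ha : 2 ≤ a i
    · have ha' : 2 ≤ a' i := by
        rcases hS i hV.ik with h | h
        · omega
        · exact h.2
      have h1 := ovw_eq hNFE hOKW n β hβ k a b i hV ha
      have h2 := ovw_eq hNFE hOKW n β hβ k a' b i hV' ha'
      have h3 : L1 θ k (fun j => a j + (if j = i then n - 1 else 0))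
          (fun j => a' j + (if j = i then n - 1 else 0)) :=
        (FC.ofFIC θ).add (fun j => if j = i then n - 1 else 0) hL
      have h4 := ins0 θ k _ _ (fun j => if j = i then 0 :: List.replicate (b j) 1 else [])
        (fun j => if j = i then [] else List.replicate (b j) 1) h3
      exact θ.trans (hle _ _ h1) (θ.trans h4 (hle _ _ h2.symm))
    · have ha1 : a i = 1 := by
        have := hV.ai
        omega
      have ha1' : a' i = 1 := by
        rcases hS i hV.ik with h | h
        · omega
        · exact absurd h.1 ha
      have h := ins0 θ k a a' (fun j => if j = i then [1] else [])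
        (fun j => if j = i then List.replicate (b j - 1) 1 else List.replicate (b j) 1) hL
      have e : ∀ c : ℕ → ℕ, c i = 1 → (fun j => (if j = i then [1] else []) ++
          List.replicate (c j) 0 ++
          (if j = i then List.replicate (b j - 1) 1 else List.replicate (b j) 1)) =
          W c b i Stt.ov := by
        intro c hc
        funext j
        unfold MWH.W
        by_cases hj : j = i
        · subst hj
          rw [if_pos rfl, if_pos rfl, if_pos rfl]
          unfold MWH.blk
          rw [if_neg (by omega)]
          rfl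
        · rw [if_neg hj, if_neg hj, if_neg hj, List.nil_append]
      rwa [e a ha1, e a' ha1'] at h

end Pool.Agent.MWGP.H37
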